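import Pool.Agent.helper34.AC.Spec2

/-!
# Project ac, module CUB: third order lower bound for `psi (m - t)`

Everything is written in terms of `w = W (m - t)` and `r = W m`, so `m = r e^r`, `t = m - w e^w`,
`psi (m - t) = e^w`, and no derivative of `W` is needed.
-/

set_option autoImplicit false

namespace Pool.Agent.helper34.AC

theorem CUB_anti (g g' : ℝ → ℝ) (w r : ℝ) (hw : 0 < w) (hwr : w ≤ r)
    (hd : ∀ x, 0 < x → x ≤ r → HasDerivAt g (g' x) x) (hn : ∀ x, 0 < x → x ≤ r → g' x ≤ 0) :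
    g r ≤ g w := by
  have hanti : AntitoneOn g (Set.Icc w r) := by
    apply antitoneOn_of_deriv_nonpos (convex_Icc w r)
    · intro x hx
      exact (hd x (lt_of_lt_of_le hw hx.1) hx.2).continuousAt.continuousWithinAt
    · intro x hx
      rw [interior_Icc] at hx
      exact (hd x (hw.trans hx.1) hx.2.le).differentiableAt.differentiableWithinAt
    · intro x hx
      rw [interior_Icc] at hx
      rw [(hd x (hw.trans hx.1) hx.2.le).deriv]
      exact hn x (hw.trans hx.1) hx.2.le
  exact hanti (Set.left_mem_Icc.2 hwr) (Set.right_mem_Icc.2 hwr) hwr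

theorem CUB_poly (w : ℝ) (hw : 0 < w) : 6 * w ^ 2 * (4 + w) ≤ (1 + w) ^ 5 := by
  nlinarith [mul_nonneg hw.le (sq_nonneg (w ^ 2 + 2 * w - 9 / 5)), sq_nonneg (w ^ 2 + w - 1),
    mul_nonneg hw.le (sq_nonneg (w - 3 / 4)), sq_nonneg (w - 3 / 4), pow_pos hw 3,
    mul_nonneg hw.le (sq_nonneg (w ^ 2 - 1 / 2)), mul_nonneg hw.le (sq_nonneg (w ^ 2 + 3 * w / 2 - 3 / 2))]

/-- the function `e^(-w) ((1+w)^(-3) - 1/(6w))` is nondecreasing. -/
noncomputable def CUB_v (w : ℝ) : ℝ := Real.exp (-w) * (1 / (1 + w) ^ 3 - 1 / (6 * w))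

theorem CUB_v_mono (w r : ℝ) (hw : 0 < w) (hwr : w ≤ r) : CUB_v w ≤ CUB_v r := by
  have h := CUB_anti (fun x => -CUB_v x)
    (fun x => -(Real.exp (-x) * ((1 + x) / (6 * x ^ 2) - (4 + x) / (1 + x) ^ 4))) w r hw hwr ?_ ?_
  · simpa using h
  · intro x hx _
    have hx1 : (1 : ℝ) + x ≠ 0 := by positivity
    have hx0 : x ≠ 0 := hx.ne'
    have e1 : HasDerivAt (fun x : ℝ => Real.exp (-x)) (-Real.exp (-x)) x := by
      have := (hasDerivAt_neg x).exp
      simpa using this
    have e2 : HasDerivAt (fun x : ℝ => 1 / (1 + x) ^ 3) (-3 / (1 + x) ^ 4) x := by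
      have h1 : HasDerivAt (fun x : ℝ => (1 + x) ^ 3) (3 * (1 + x) ^ 2) x := by
        have h2 : HasDerivAt (fun x : ℝ => 1 + x) 1 x := (hasDerivAt_id x).const_add 1
        exact (h2.pow 3).congr_deriv (by simp)
      have h3 := h1.inv (pow_ne_zero 3 hx1)
      simp only [one_div]
      refine h3.congr_deriv ?_
      field_simp
    have e3 : HasDerivAt (fun x : ℝ => 1 / (6 * x)) (-1 / (6 * x ^ 2)) x := by
      have h1 : HasDerivAt (fun x : ℝ => 6 * x) 6 x := by
        simpa using (hasDerivAt_id x).const_mul 6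
      have h3 := h1.inv (by positivity)
      simp only [one_div]
      refine h3.congr_deriv ?_
      field_simp
    have e4 := (e1.mul (e2.sub e3)).neg
    unfold CUB_v
    refine e4.congr_deriv ?_
    simp only [Pi.sub_apply]
    field_simp
    ring
  · intro x hx _
    rw [neg_nonpos]
    apply mul_nonneg (Real.exp_pos _).le
    rw [sub_nonneg, div_le_div_iff₀ (by positivity) (by positivity)]
    have := CUB_poly x hx
    nlinarith [this]

/-- the logarithm of `(m - t)/m`. -/
noncomputable def CUB_L (r w : ℝ) : ℝ := Real.log w + w - Real.log r - r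

/-- `t` as a function of `w`. -/
noncomputable def CUB_t (r w : ℝ) : ℝ := r * Real.exp r - w * Real.exp w

/-- the derivative `f'(t)`. -/
noncomputable def CUB_h (r w : ℝ) : ℝ := -(1 / (1 + w)) + 1 / (1 + r) +
  CUB_t r w / (Real.exp r * (1 + r) ^ 3) - (CUB_L r w + CUB_t r w / (r * Real.exp r)) / 6

/-- the function `f(t)`. -/
noncomputable def CUB_F (r w : ℝ) : ℝ := Real.exp w - Real.exp r + CUB_t r w / (1 + r) +
  CUB_t r w ^ 2 / (2 * Real.exp r * (1 + r) ^ 3) +
  (w * Real.exp w * CUB_L r w + CUB_t r w - CUB_t r w ^ 2 / (2 * (r * Real.exp r))) / 6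

theorem CUB_dt (r w : ℝ) : HasDerivAt (CUB_t r) (-((1 + w) * Real.exp w)) w := by
  have h1 : HasDerivAt (fun w : ℝ => w * Real.exp w) (1 * Real.exp w + w * Real.exp w) w :=
    (hasDerivAt_id w).mul (Real.hasDerivAt_exp w)
  have h2 := h1.const_sub (r * Real.exp r)
  refine h2.congr_deriv ?_
  ring

theorem CUB_dL (r w : ℝ) (hw : 0 < w) : HasDerivAt (CUB_L r) (w⁻¹ + 1) w := by
  have h1 := (Real.hasDerivAt_log hw.ne').add (hasDerivAt_id w)
  exact (h1.sub_const (Real.log r)).sub_const r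

theorem CUB_h_nonneg (r w : ℝ) (hw : 0 < w) (hwr : w ≤ r) : 0 ≤ CUB_h r w := by
  have hr : 0 < r := lt_of_lt_of_le hw hwr
  have h0 : CUB_h r r = 0 := by
    unfold CUB_h CUB_L CUB_t
    ring
  have key := CUB_anti (CUB_h r) (fun x => (1 + x) * Real.exp x * (CUB_v x - CUB_v r)) w r hw hwr ?_ ?_
  · rw [h0] at key
    exact key
  · intro x hx _
    have hx1 : (1 : ℝ) + x ≠ 0 := by positivity
    have hr1 : (1 : ℝ) + r ≠ 0 := by positivity
    have e1 : HasDerivAt (fun x : ℝ => -(1 / (1 + x))) (1 / (1 + x) ^ 2) x := by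
      have h2 : HasDerivAt (fun x : ℝ => 1 + x) 1 x := (hasDerivAt_id x).const_add 1
      have h3 := (h2.inv hx1).neg
      simp only [one_div]
      refine h3.congr_deriv ?_
      field_simp
    have e2 := (e1.add_const (1 / (1 + r))).add
      ((CUB_dt r x).div_const (Real.exp r * (1 + r) ^ 3))
    have e3 := ((CUB_dL r x hx).add ((CUB_dt r x).div_const (r * Real.exp r))).div_const 6
    have e4 := e2.sub e3
    unfold CUB_h
    refine e4.congr_deriv ?_
    unfold CUB_v
    rw [Real.exp_neg, Real.exp_neg]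
    have hex := (Real.exp_pos x).ne'
    have her := (Real.exp_pos r).ne'
    have hx0 := hx.ne'
    have hr0 := hr.ne'
    field_simp
    ring
  · intro x hx hxr
    apply mul_nonpos_of_nonneg_of_nonpos
    · positivity
    · rw [sub_nonpos]
      exact CUB_v_mono x r hx hxr

theorem CUB_F_nonneg (r w : ℝ) (hw : 0 < w) (hwr : w ≤ r) : 0 ≤ CUB_F r w := by
  have hr : 0 < r := lt_of_lt_of_le hw hwr
  have h0 : CUB_F r r = 0 := by
    unfold CUB_F CUB_L CUB_t
    ring
  have key := CUB_anti (CUB_F r) (fun x => -((1 + x) * Real.exp x * CUB_h r x)) w r hw hwr ?_ ?_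
  · rw [h0] at key
    exact key
  · intro x hx _
    have hx1 : (1 : ℝ) + x ≠ 0 := by positivity
    have hr1 : (1 : ℝ) + r ≠ 0 := by positivity
    have h1 : HasDerivAt (fun w : ℝ => w * Real.exp w) (1 * Real.exp x + x * Real.exp x) x :=
      (hasDerivAt_id x).mul (Real.hasDerivAt_exp x)
    have hsq : HasDerivAt (fun w => CUB_t r w ^ 2) (2 * CUB_t r x * (-((1 + x) * Real.exp x))) x := by
      exact ((CUB_dt r x).pow 2).congr_deriv (by simp)
    have e1 := ((Real.hasDerivAt_exp x).sub_const (Real.exp r)).add ((CUB_dt r x).div_const (1 + r))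
    have e2 := e1.add (hsq.div_const (2 * Real.exp r * (1 + r) ^ 3))
    have e3 := (((h1.mul (CUB_dL r x hx)).add (CUB_dt r x)).sub
      (hsq.div_const (2 * (r * Real.exp r)))).div_const 6
    have e4 := e2.add e3
    unfold CUB_F
    refine e4.congr_deriv ?_
    unfold CUB_h
    have hex := (Real.exp_pos x).ne'
    have her := (Real.exp_pos r).ne'
    have hx0 := hx.ne'
    have hr0 := hr.ne'
    generalize CUB_t r x = T
    generalize CUB_L r x = L
    field_simp
    ring
  · intro x hx hxr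
    rw [neg_nonpos]
    exact mul_nonneg (by positivity) (CUB_h_nonneg r x hx hxr)

theorem CUB_log (u : ℝ) (h0 : 0 ≤ u) (h1 : u < 1) : Real.log (1 - u) ≤ -u - u ^ 2 / 2 := by
  have hs := Real.hasSum_pow_div_log_of_abs_lt_one (x := u) (by rw [abs_of_nonneg h0]; exact h1)
  have h2 := sum_le_hasSum (Finset.range 2) (fun i _ => by positivity) hs
  simp only [Finset.sum_range_succ, Finset.sum_range_zero] at h2
  norm_num at h2
  linarith

theorem CUB (hWEX : WEX_stmt) : CUB_stmt := by
  intro m t hm ht htm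
  obtain ⟨hW, -, hmono, hpos, -⟩ := hWEX
  have hmt : 0 < m - t := by linarith
  set r := W m with hr
  set w := W (m - t) with hw
  have hr0 : 0 < r := hpos m hm
  have hw0 : 0 < w := hpos (m - t) hmt
  have hwr : w ≤ r := hmono (m - t) m hmt.le (by linarith)
  have er : r * Real.exp r = m := (hW m hm.le).2
  have ew : w * Real.exp w = m - t := (hW (m - t) hmt.le).2
  have hT : CUB_t r w = t := by
    unfold CUB_t
    rw [er, ew]
    ring
  have hF := CUB_F_nonneg r w hw0 hwr
  unfold CUB_F at hF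
  rw [hT, ew, er] at hF
  have hL : CUB_L r w = Real.log (1 - t / m) := by
    have e1 : 1 - t / m = (w * Real.exp w) / (r * Real.exp r) := by
      rw [er, ew]
      field_simp
    rw [e1, Real.log_div (by positivity) (by positivity), Real.log_mul hw0.ne' (Real.exp_pos w).ne',
      Real.log_mul hr0.ne' (Real.exp_pos r).ne', Real.log_exp, Real.log_exp]
    unfold CUB_L
    ring
  have hu0 : 0 ≤ t / m := by positivity
  have hu1 : t / m < 1 := (div_lt_one hm).2 htm
  have hlog := CUB_log (t / m) hu0 hu1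
  rw [hL] at hF
  have hQ : (m - t) * Real.log (1 - t / m) + t - t ^ 2 / (2 * m) ≤ t ^ 3 / (2 * m ^ 2) := by
    have h1 : (m - t) * Real.log (1 - t / m) ≤ (m - t) * (-(t / m) - (t / m) ^ 2 / 2) :=
      mul_le_mul_of_nonneg_left hlog hmt.le
    have h2 : (m - t) * (-(t / m) - (t / m) ^ 2 / 2) + t - t ^ 2 / (2 * m) = t ^ 3 / (2 * m ^ 2) := by
      field_simp
      ring
    linarith
  have hpm : psi m = Real.exp r := rfl
  have hpt : psi (m - t) = Real.exp w := rfl
  rw [hpm, hpt]
  have e5 : t ^ 3 / (12 * m ^ 2) = (t ^ 3 / (2 * m ^ 2)) / 6 := by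
    field_simp
    ring
  rw [e5]
  linarith

end Pool.Agent.helper34.AC
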