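import Pool.Agent.helper34.AC.Spec2

/-!
# Project ac, module FIN
-/

set_option autoImplicit false

namespace Pool.Agent.helper34.AC

theorem FIN_r (r : ℝ) (hr : 0 ≤ r) (h : 1 ≤ r * Real.exp r) : 14 / 25 ≤ r := by
  by_contra hlt
  rw [not_le] at hlt
  have h1 : Real.exp (14 / 25) * (1 + 11 / 25 + (11 / 25) ^ 2 / 2) ≤ 2.7182818286 := by
    have h2 : Real.exp (14 / 25) * Real.exp (11 / 25) = Real.exp 1 := by
      rw [← Real.exp_add]
      norm_num
    have h3 := Real.quadratic_le_exp_of_nonneg (x := 11 / 25) (by norm_num)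
    have h4 := Real.exp_one_lt_d9
    calc Real.exp (14 / 25) * (1 + 11 / 25 + (11 / 25) ^ 2 / 2)
        ≤ Real.exp (14 / 25) * Real.exp (11 / 25) :=
          mul_le_mul_of_nonneg_left h3 (Real.exp_pos _).le
      _ = Real.exp 1 := h2
      _ ≤ 2.7182818286 := h4.le
  have h5 : r * Real.exp r ≤ 14 / 25 * Real.exp (14 / 25) := by
    have h6 : Real.exp r ≤ Real.exp (14 / 25) := Real.exp_le_exp.2 hlt.le
    exact mul_le_mul hlt.le h6 (Real.exp_pos r).le (by norm_num)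
  norm_num at h1
  linarith

theorem FIN_conv (s r : ℝ) (hs : 0 ≤ s) :
    r * Real.exp r + (s - r) * ((1 + r) * Real.exp r) ≤ s * Real.exp s := by
  have h1 : Real.exp s = Real.exp r * Real.exp (s - r) := by
    rw [← Real.exp_add]
    congr 1
    ring
  have h2 : (s - r) + 1 ≤ Real.exp (s - r) := Real.add_one_le_exp _
  have h3 : s * ((s - r) + 1) ≤ s * Real.exp (s - r) := mul_le_mul_of_nonneg_left h2 hs
  have h4 : r + (s - r) * (1 + r) ≤ s * Real.exp (s - r) := by nlinarith [sq_nonneg (s - r)]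
  have h5 := mul_le_mul_of_nonneg_left h4 (Real.exp_pos r).le
  rw [h1]
  linarith

theorem FIN_A (r m : ℝ) (hr : 14 / 25 ≤ r) (hm2 : r * (1 + r + r ^ 2 / 2) ≤ m) :
    (1 + r) * (r ^ 2 + 3 * r + 1) / (12 * m ^ 2) ≤ 1 / 2 ∧
      r * ((1 + r) * (r ^ 2 + 3 * r + 1) / (12 * m ^ 2)) ≤ 6 / 25 := by
  have hr0 : 0 < r := by linarith
  have hm0 : 0 < m := lt_of_lt_of_le (by positivity) hm2
  have hsq : (r * (1 + r + r ^ 2 / 2)) ^ 2 ≤ m ^ 2 := pow_le_pow_left₀ (by positivity) hm2 2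
  obtain ⟨x, hx, rfl⟩ : ∃ x : ℝ, 0 ≤ x ∧ r = 14 / 25 + x := ⟨r - 14 / 25, by linarith, by ring⟩
  have p2 := pow_nonneg hx 2
  have p3 := pow_nonneg hx 3
  have p4 := pow_nonneg hx 4
  have p5 := pow_nonneg hx 5
  have p6 := pow_nonneg hx 6
  constructor
  · rw [div_le_iff₀ (by positivity)]
    nlinarith [hsq]
  · rw [← mul_div_assoc, div_le_iff₀ (by positivity)]
    nlinarith [hsq]

theorem FIN_B (r m : ℝ) (hr : 14 / 25 ≤ r) (hm3 : r * (1 + r + r ^ 2 / 2 + r ^ 3 / 6) ≤ m) :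
    (1 + r) ^ 2 * (r ^ 2 + 3 * r + 1) / (12 * m) ≤ 33 / 50 := by
  have hr0 : 0 < r := by linarith
  have hm0 : 0 < m := lt_of_lt_of_le (by positivity) hm3
  rw [div_le_iff₀ (by positivity)]
  have h1 : (1 + r) ^ 2 * (r ^ 2 + 3 * r + 1) ≤
      33 / 50 * (12 * (r * (1 + r + r ^ 2 / 2 + r ^ 3 / 6))) := by
    obtain ⟨x, hx, rfl⟩ : ∃ x : ℝ, 0 ≤ x ∧ r = 14 / 25 + x := ⟨r - 14 / 25, by linarith, by ring⟩
    nlinarith [mul_nonneg hx (sq_nonneg (x - 3 / 2)), sq_nonneg (x * (x - 3 / 2)),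
      sq_nonneg (x * (x - 1)), pow_nonneg hx 2, pow_nonneg hx 3, mul_nonneg hx (sq_nonneg (x - 1))]
  linarith

theorem FIN (hWEX : WEX_stmt) : FIN_stmt := by
  intro m hm
  obtain ⟨hW, -, -, -, -⟩ := hWEX
  obtain ⟨hr0, hrm⟩ := hW m (by linarith)
  unfold tau psi
  set r := W m with hr
  have hr1 : 14 / 25 ≤ r := FIN_r r hr0 (by rw [hrm]; exact hm)
  have hrpos : 0 < r := by linarith
  have he0 := Real.exp_pos r
  have hm0 : 0 < m := by linarith
  have hq := Real.quadratic_le_exp_of_nonneg hr0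
  have hc : 1 + r + r ^ 2 / 2 + r ^ 3 / 6 ≤ Real.exp r := by
    have h1 := Real.sum_le_exp_of_nonneg hr0 4
    simp only [Finset.sum_range_succ, Finset.sum_range_zero, Nat.factorial] at h1
    norm_num at h1
    linarith
  have hm2 : r * (1 + r + r ^ 2 / 2) ≤ m := by
    rw [← hrm]
    exact mul_le_mul_of_nonneg_left hq hr0
  have hm3 : r * (1 + r + r ^ 2 / 2 + r ^ 3 / 6) ≤ m := by
    rw [← hrm]
    exact mul_le_mul_of_nonneg_left hc hr0
  obtain ⟨hA1, hA2⟩ := FIN_A r m hr1 hm2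
  have hB := FIN_B r m hr1 hm3
  have hP : 1 / (2 * Real.exp r * (1 + r)) ≤ 1 / 2 := by
    rw [div_le_div_iff₀ (by positivity) (by norm_num)]
    nlinarith [hq, sq_nonneg r]
  have hP2 : r * (1 / (2 * Real.exp r * (1 + r))) ≤ 1 / 8 := by
    rw [mul_one_div, div_le_div_iff₀ (by positivity) (by norm_num)]
    have h1 : 1 + r ≤ Real.exp r := by nlinarith [hq, sq_nonneg r]
    have h2 : (1 + r) * (1 + r) ≤ Real.exp r * (1 + r) :=
      mul_le_mul_of_nonneg_right h1 (by positivity)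
    nlinarith [sq_nonneg (r - 1)]
  set X := 1 / (2 * Real.exp r * (1 + r)) with hX
  set Y := (1 + r) * (r ^ 2 + 3 * r + 1) / (12 * m ^ 2) with hY
  have hX0 : 0 ≤ X := by positivity
  have hY0 : 0 ≤ Y := by positivity
  have hτ : 0 ≤ r - r * (X + Y) := by
    have : r * (X + Y) ≤ r * 1 := mul_le_mul_of_nonneg_left (by linarith) hr0
    linarith
  refine ⟨hτ, ?_⟩
  have hconv := FIN_conv (r - r * (X + Y)) r hτ
  have e1 : r * (X + Y) * ((1 + r) * Real.exp r) =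
      r / 2 + (1 + r) ^ 2 * (r ^ 2 + 3 * r + 1) / (12 * m) := by
    have h1 : r * X * ((1 + r) * Real.exp r) = r / 2 := by
      rw [hX]
      have := he0.ne'
      have : (1 : ℝ) + r ≠ 0 := by positivity
      field_simp
    have h2 : r * Y * ((1 + r) * Real.exp r) = (1 + r) ^ 2 * (r ^ 2 + 3 * r + 1) / (12 * m) := by
      rw [hY]
      have h3 : r * ((1 + r) * (r ^ 2 + 3 * r + 1) / (12 * m ^ 2)) * ((1 + r) * Real.exp r) =
          (1 + r) ^ 2 * (r ^ 2 + 3 * r + 1) * (r * Real.exp r) / (12 * m ^ 2) := by ring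
      rw [h3, hrm]
      field_simp
    calc r * (X + Y) * ((1 + r) * Real.exp r) =
          r * X * ((1 + r) * Real.exp r) + r * Y * ((1 + r) * Real.exp r) := by ring
      _ = _ := by rw [h1, h2]
  have e2 : (r - r * (X + Y) - r) * ((1 + r) * Real.exp r) =
      -(r * (X + Y) * ((1 + r) * Real.exp r)) := by ring
  rw [e2, e1, hrm] at hconv
  nlinarith [hconv]

end Pool.Agent.helper34.AC
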