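import Pool.Agent.helper34.AC.Spec4

/-!
# Project ac, module T2S: all graphs of large order
-/

set_option autoImplicit false

open Filter Topology

namespace Pool.Agent.helper34.AC

/-- the numerical consequence of ASY. -/
theorem T2S_num (hASY : ASY_stmt) : ∃ M : ℕ, ∀ m : ℕ, M ≤ m →
    0 < xx m ∧ 0 < gb m ∧ 0 < om m ∧ 512 / gb m ^ 3 ≤ xx m / (40 * gb m) := by
  obtain ⟨M, hM⟩ := hASY (1 / 1000) (by norm_num)
  refine ⟨M, fun m hm => ?_⟩
  obtain ⟨h1, -, -, h4, h5, -, -, hx⟩ := hM m hm
  have hom : 1000 ≤ om m := by
    have : (1 : ℝ) / (1 / 1000) = 1000 := by norm_num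
    rw [this] at h5
    exact h5
  have hom0 : 0 < om m := by linarith
  have h8 : 1 + om m ≤ (1 + om m) ^ 8 := by
    calc 1 + om m = (1 + om m) ^ 1 := (pow_one _).symm
      _ ≤ (1 + om m) ^ 8 := pow_le_pow_right₀ (by linarith) (by norm_num)
  have hg1 : 1000 * (1 + om m) ≤ gb m := by linarith
  have hg0 : 0 < gb m := by linarith
  have hxo : 999 / 1000 ≤ xx m * om m := by
    have := (abs_le.1 h1).1
    linarith
  refine ⟨hx, hg0, hom0, ?_⟩
  rw [div_le_div_iff₀ (by positivity) (by positivity)]
  -- 512 * (40 * g) ≤ x * g ^ 3
  have h6 : 20480 ≤ xx m * gb m ^ 2 := by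
    have h7 : 1000 * om m * gb m ≤ gb m ^ 2 := by nlinarith
    have h9 : 1000 * (xx m * om m) * gb m ≤ xx m * gb m ^ 2 := by nlinarith
    have h10 : 1000 * (999 / 1000 : ℝ) * gb m ≤ 1000 * (xx m * om m) * gb m := by
      gcongr
    nlinarith
  nlinarith

theorem T2S (hSTP : STP_stmt) (hEFN : EFN_stmt) (hMAIN : MAIN_stmt) (hLTW : LTW_stmt)
    (hRCN : RCN_stmt) (hPOS : POS_stmt) (hASY : ASY_stmt) : T2S_stmt := by
  classical
  obtain ⟨Ms, hMs⟩ := hSTP
  obtain ⟨Ma, hMa⟩ := T2S_num hASY
  obtain ⟨e, M1, N2, hM1, he, hlow, hBf, hlip, hzero⟩ := hEFN (Ms + Ma + 1)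
  have key : ∀ (V : Type) [DecidableEq V] (G : SimpleGraph V) (n : ℕ) (U : Finset V), U.card = n →
      (gb U.card - e U.card) * N G U ≤ N1 G U := by
    intro V _ G n
    induction n using Nat.strong_induction_on with
    | _ n ih =>
      intro U hU
      have hN : 0 ≤ N G U := by
        have := (hPOS V G U).1
        linarith
      by_cases hn : n < M1
      · have h1 := hMAIN V G U
        have h2 := hlow n hn
        rw [← hU] at h2
        exact (mul_le_mul_of_nonneg_right h2 hN).trans h1
      · rw [not_lt] at hn
        obtain ⟨m, rfl⟩ : ∃ m, n = m + 1 := ⟨n - 1, by omega⟩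
        by_cases hst : Stab G U
        · rw [hLTW.2.2 V G U hst]
          have := (he U.card).1
          nlinarith
        · have hind : ∀ U' : Finset V, U'.card ≤ m → (gb U'.card - e U'.card) * N G U' ≤ N1 G U' :=
            fun U' hU' => ih U'.card (by omega) U' rfl
          obtain ⟨v, hv, hM1v, htail, hmain⟩ := hMs m (by omega) e he (hBf m hn) V G hind U hU hst
          obtain ⟨hx, hg, ho, hnum⟩ := hMa m (by omega)
          obtain ⟨hr0, -, -⟩ := hRCN V G U v hv
          have hmk0 : N G U = ∑ S ∈ st G {v} (U.erase v), N G (U.erase v \ S) := by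
            rw [hr0]
            simp [Mk]
          have hmk1 : Mk G {v} (U.erase v) 1 =
              ∑ S ∈ st G {v} (U.erase v), (S.card : ℝ) * N G (U.erase v \ S) := by
            simp [Mk]
          rw [hU]
          set c : ℝ := xx m / (40 * gb m * (1 + om m)) with hc
          have hc0 : 0 ≤ c := by positivity
          have hsum : ∑ S ∈ st G {v} (U.erase v), e (m - S.card) * N G (U.erase v \ S) ≤
              (e (m + 1) + xx m / (40 * gb m) + 512 / gb m ^ 3) * N G U := by
            have hterm : ∀ S ∈ st G {v} (U.erase v), e (m - S.card) * N G (U.erase v \ S) ≤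
                (e (m + 1) + ((S.card : ℝ) + 1) * c) * N G (U.erase v \ S) +
                  (if m < 2 * S.card then N G (U.erase v \ S) else 0) := by
              intro S _
              have hNS : 0 ≤ N G (U.erase v \ S) := by
                have := (hPOS V G (U.erase v \ S)).1
                linarith
              by_cases hS : m < 2 * S.card
              · rw [if_pos hS]
                have h1 : e (m - S.card) ≤ 1 := (he _).2
                have h2 : 0 ≤ e (m + 1) := (he _).1
                have h3 : 0 ≤ ((S.card : ℝ) + 1) * c := by positivity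
                nlinarith
              · rw [if_neg hS, add_zero]
                have h1 := hlip m hn S.card (by omega)
                have h2 : ((S.card : ℝ) + 1) * xx m / (40 * gb m * (1 + om m)) =
                    ((S.card : ℝ) + 1) * c := by rw [hc]; ring
                rw [h2] at h1
                exact mul_le_mul_of_nonneg_right h1 hNS
            have h1 := Finset.sum_le_sum hterm
            rw [Finset.sum_add_distrib, ← Finset.sum_filter] at h1
            have h2 : ∑ S ∈ st G {v} (U.erase v),
                (e (m + 1) + ((S.card : ℝ) + 1) * c) * N G (U.erase v \ S) =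
                (e (m + 1) + c) * N G U + c * Mk G {v} (U.erase v) 1 := by
              rw [hmk0, hmk1, Finset.mul_sum, Finset.mul_sum, ← Finset.sum_add_distrib]
              refine Finset.sum_congr rfl fun S _ => ?_
              ring
            rw [h2] at h1
            have h3 : c * Mk G {v} (U.erase v) 1 ≤ c * (om m * N G U) :=
              mul_le_mul_of_nonneg_left hM1v hc0
            have h4 : c * (1 + om m) = xx m / (40 * gb m) := by
              rw [hc]
              field_simp
            have h5 : (e (m + 1) + xx m / (40 * gb m) + 512 / gb m ^ 3) * N G U =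
                (e (m + 1) + c) * N G U + c * (om m * N G U) + 512 / gb m ^ 3 * N G U := by
              rw [← h4]
              ring
            rw [h5]
            linarith
          have h6 : xx m / (40 * gb m) + 512 / gb m ^ 3 ≤ xx m / (11 * gb m) := by
            have h7 : xx m / (40 * gb m) + xx m / (40 * gb m) ≤ xx m / (11 * gb m) := by
              rw [← two_mul, ← mul_div_assoc, div_le_div_iff₀ (by positivity) (by positivity)]
              have : 0 < xx m * gb m := by positivity
              nlinarith
            linarith
          have h8 := mul_le_mul_of_nonneg_right h6 hN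
          nlinarith
  refine ⟨N2, fun V _ G U hU => ?_⟩
  have h1 := key V G U.card U rfl
  rw [hzero U.card hU, sub_zero] at h1
  exact h1

end Pool.Agent.helper34.AC
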